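import Pool.Agent.H43.Lsi2

set_option autoImplicit false

namespace Pool.Agent.Results.MP_13a01f_pr.TiltFails

open MeasureTheory Set Real Filter Topology Pool.Agent.H43.Lsi1 Pool.Agent.H43.Lsi2 WithLp
open scoped ENNReal NNReal Pointwise ContDiff

noncomputable section

/-- Logconcave measures on Euclidean space. -/
def LogConcave {n : ℕ} (ρ : Measure (EuclideanSpace ℝ (Fin n))) : Prop :=
  ∀ A B : Set (EuclideanSpace ℝ (Fin n)), IsCompact A → IsCompact B → ∀ a b : ℝ, 0 < a → 0 < b → a + b = 1 →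
    ρ A ^ a * ρ B ^ b ≤ ρ (a • A + b • B)

/-- The log-Sobolev constant (infinite if no finite constant works). -/
def CLSI {n : ℕ} (μ : Measure (EuclideanSpace ℝ (Fin n))) : ℝ≥0∞ :=
  ⨅ (C : ℝ≥0) (_ : ∀ f : EuclideanSpace ℝ (Fin n) → ℝ, ContDiff ℝ ∞ f →
    Ent μ (fun x => f x ^ 2) ≤ C * ∫ x, ‖gradient f x‖ ^ 2 ∂μ), (C : ℝ≥0∞)

variable {n : ℕ} {R δ m c : ℝ}

lemma normalise (P : Par n R δ) : ∃ c, IsProbabilityMeasure (M (Q n R) (Ph R δ c)) := by
  have hR := P.hR
  have a1 : ContinuousOn (Ph R δ 0) (Q n R) := fun z hz => ContinuousAt.continuousWithinAt (by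
    have h1 : 1 - δ * ph R (z 0) ≠ 0 := by linarith [(P.mem (ph_mem hR hz.1)).2]
    have h2 : z 0 / R ≠ 0 := (div_pos (by linarith [hz.1.1]) (by linarith)).ne'
    unfold Ph G ph at *
    fun_prop (disch := assumption))
  have a2 : IntegrableOn (fun z => exp (-Ph R δ 0 z)) (Q n R) := ContinuousOn.integrableOn_compact Q_cpt (by fun_prop)
  have : NeZero (volume.restrict (Q n R)) := ⟨by
    rw [ne_eq, Measure.restrict_eq_zero]
    refine (lt_of_lt_of_le (IsOpen.measure_pos volume (U := {z : E n | z 0 ∈ Ioo R (2 * R)} ∩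
      ⋂ i : Fin n, {z | z i.succ ∈ Ioo (-1 : ℝ) 1}) ((isOpen_Ioo.preimage (by fun_prop)).inter (isOpen_iInter_of_finite fun i =>
        isOpen_Ioo.preimage (by fun_prop))) ⟨cs (3 / 2 * R) 0, ?_⟩) (measure_mono fun z hz =>
        And.intro (Ioo_subset_Icc_self hz.1) fun i => Ioo_subset_Icc_self (mem_iInter.1 hz.2 i))).ne'
    simp
    constructor <;> linarith⟩
  have a3 := integral_exp_pos a2
  refine ⟨log (∫ z in Q n R, exp (-Ph R δ 0 z)), ⟨?_⟩⟩
  have e : ∀ z : E n, exp (-Ph R δ (log (∫ z in Q n R, exp (-Ph R δ 0 z))) z) =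
      exp (-Ph R δ 0 z) / ∫ z in Q n R, exp (-Ph R δ 0 z) := fun z => by
    rw [eq_div_iff a3.ne', ← exp_log a3, ← exp_add, log_exp]
    simp only [Ph]; ring_nf
  rw [M, withDensity_apply _ .univ, Measure.restrict_univ]
  simp only [e]
  rw [← ofReal_integral_eq_lintegral_ofReal (a2.div_const _) (.of_forall fun z => by positivity), integral_div,
    div_self a3.ne', ENNReal.ofReal_one]

lemma sym (i : Fin n) : ∫ z, T R δ m z i.succ ∂M (Q n R) (Ph R δ c) = 0 := by
  let S : E n ≃ₗᵢ[ℝ] E n := .piLpCongrRight 2 fun i => if i = 0 then .refl ℝ ℝ else .neg ℝ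
  have s0 : ∀ z, S z 0 = z 0 := fun z => rfl
  have s1 : ∀ z (i : Fin n), S z i.succ = -z i.succ := fun z i => by simp [S]
  have m1 := (Ph_meas (n := n) (R := R) (δ := δ) (c := c))
  have mS := S.continuous.measurable
  have a : (M (Q n R) (Ph R δ c)).map S = M (Q n R) (Ph R δ c) := Measure.ext_of_lintegral _ fun F hF => by
    rw [lintegral_map hF mS, lint_M Q_cpt.measurableSet m1 (by fun_prop), lint_M Q_cpt.measurableSet m1 hF,
      ← S.measurePreserving.lintegral_comp (f := indicator _ fun x => _ * F x) (.indicator (by fun_prop) Q_cpt.measurableSet)]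
    refine lintegral_congr fun z => ?_
    have : S z ∈ Q n R ↔ z ∈ Q n R := by simp only [Q, mem_ofPred_eq, s0, s1, mem_Icc, neg_le_neg_iff, neg_le, and_comm]
    by_cases hz : z ∈ Q n R
    · simp only [indicator_of_mem hz, indicator_of_mem (this.2 hz), Ph, s0, S.norm_map]
    · simp only [indicator_of_notMem hz, indicator_of_notMem (mt this.1 hz)]
  have b := integral_map (μ := M (Q n R) (Ph R δ c)) mS.aemeasurable (f := fun z => T R δ m z i.succ)
    (Continuous.aestronglyMeasurable ((EuclideanSpace.proj i.succ).continuous.comp (T_cont (m := m))))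
  simp only [a, T1, s0, s1, mul_neg, integral_neg] at b ⊢
  linarith

def J (β : ℝ) : ℝ := ∫ t in Icc (-1 : ℝ) 1, exp (-β * t ^ 2)

def kap (β : ℝ) : ℝ := (∫ t in Icc (-1 : ℝ) 1, t ^ 2 * exp (-β * t ^ 2)) / J β

lemma J_pos (β : ℝ) : 0 < J β := by
  have : NeZero (volume.restrict (Icc (-1 : ℝ) 1)) := ⟨by simp⟩
  exact integral_exp_pos (Continuous.integrableOn_Icc (by fun_prop))

lemma kap_pos (β : ℝ) : 0 < kap β := by
  refine div_pos ?_ (J_pos β)
  rw [integral_pos_iff_support_of_nonneg (fun t => by positivity) (Continuous.integrableOn_Icc (by fun_prop)),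
    show Function.support (fun t : ℝ => t ^ 2 * exp (-β * t ^ 2)) = {0}ᶜ by ext; simp, measure_compl (by simp) (by simp)]
  simp

lemma J_bd (β θ : ℝ) (h0 : 0 ≤ θ) (h1 : θ ≤ 1) :
    J β * exp (θ * kap β) ≤ J (β - θ) ∧ J (β - θ) ≤ J β * exp (θ * kap β + θ ^ 2) := by
  have i1 : IntegrableOn (fun t : ℝ => exp (-β * t ^ 2)) (Icc (-1) 1) := Continuous.integrableOn_Icc (by fun_prop)
  have i2 : IntegrableOn (fun t : ℝ => t ^ 2 * exp (-β * t ^ 2)) (Icc (-1) 1) := Continuous.integrableOn_Icc (by fun_prop)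
  have k : ∀ a b : ℝ, ∫ t in Icc (-1 : ℝ) 1, a * exp (-β * t ^ 2) + b * (t ^ 2 * exp (-β * t ^ 2)) =
      J β * (a + b * kap β) := fun a b => by
    have := J_pos β
    rw [integral_add (i1.const_mul _) (i2.const_mul _), integral_const_mul, integral_const_mul, kap, ← J, mul_add,
      mul_left_comm, mul_div_cancel₀ _ this.ne', mul_comm]
  have e : ∀ t : ℝ, exp (-(β - θ) * t ^ 2) = exp (-β * t ^ 2) * exp (θ * t ^ 2) := fun t => by rw [← exp_add]; ring_nf
  constructor
  · rw [show exp (θ * kap β) = exp (θ * kap β) * (1 - θ * kap β) + exp (θ * kap β) * θ * kap β by ring, ← k]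
    refine integral_mono ((i1.const_mul _).add (i2.const_mul _)) (Continuous.integrableOn_Icc (by fun_prop)) fun t => ?_
    have := mul_le_mul_of_nonneg_left (add_one_le_exp (θ * t ^ 2 - θ * kap β))
      (mul_pos (exp_pos (θ * kap β)) (exp_pos (-β * t ^ 2))).le
    rw [exp_sub, mul_comm (exp _) (exp _), mul_assoc, mul_assoc, mul_div_cancel₀ _ (exp_pos _).ne'] at this
    simp only [e]
    linarith
  · refine le_trans ?_ (mul_le_mul_of_nonneg_left (add_one_le_exp _) (J_pos β).le)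
    rw [show θ * kap β + θ ^ 2 + 1 = 1 + θ ^ 2 + θ * kap β by ring, ← k]
    refine setIntegral_mono_on (Continuous.integrableOn_Icc (by fun_prop)) ((i1.const_mul _).add (i2.const_mul _))
      measurableSet_Icc fun t ht => ?_
    have a1 : t ^ 2 ≤ 1 := (sq_le_one_iff_abs_le_one _).2 (abs_le.2 ht)
    have a2 : θ * t ^ 2 ≤ θ := mul_le_of_le_one_right h0 a1
    have a3 := (abs_le.1 (abs_exp_sub_one_sub_id_le (x := θ * t ^ 2) (by rw [abs_of_nonneg (by positivity)]; linarith))).2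
    have a4 := pow_le_pow_left₀ (by positivity) a2 2
    rw [e]
    nlinarith [exp_pos (-β * t ^ 2)]

def p (n : ℕ) (R δ m c r : ℝ) : ℝ := exp (-(r ^ 2 / 2 + G n R δ r + c + (ph R r - m) ^ 2 / (2 * R ^ 2))) *
  J (1 / 2 + 1 / (2 * R ^ 2) - δ * ph R r / (2 * R ^ 2)) ^ n

lemma red (P : Par n R δ) {q : ℝ → ℝ} (hq : Measurable q) (h0 : ∀ u, 0 ≤ q u) :
    ∫⁻ z, .ofReal (exp (-‖T R δ m z‖ ^ 2 / (2 * R ^ 2)) * q (ph R (z 0))) ∂M (Q n R) (Ph R δ c) =
      ∫⁻ r in Icc R (2 * R), .ofReal (q (ph R r) * p n R δ m c r) := by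
  have hR := P.hR
  have m1 := (Ph_meas (n := n) (R := R) (δ := δ) (c := c))
  have m3 := (T_cont (n := n) (R := R) (δ := δ) (m := m)).measurable
  have m4 : Measurable (ph R) := by unfold ph; fun_prop
  rw [lint_M Q_cpt.measurableSet m1 (by fun_prop), fub (.indicator (by fun_prop) Q_cpt.measurableSet),
    ← setLIntegral_eq_of_support_subset (s := Icc R (2 * R))]
  · refine setLIntegral_congr_fun measurableSet_Icc fun r hr => ?_
    have h1 := P.mem (ph_mem hR hr)
    rw [p, ← mul_assoc, J, ← Fintype.card_fin n, ← integral_fintype_prod_eq_pow, Fintype.card_fin, ← integral_const_mul,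
      ofReal_integral_eq_lintegral_ofReal ((Integrable.fintype_prod (f := fun _ (t : ℝ) => exp (-_ * t ^ 2)) fun _ =>
        (Continuous.integrableOn_Icc (by fun_prop)).integrable).const_mul _) (.of_forall fun y => by have := h0 (ph R r); positivity), ← Measure.restrict_pi_pi,
      ← lintegral_indicator (.univ_pi fun _ => measurableSet_Icc)]
    refine lintegral_congr fun y => ?_
    have e : y ∈ univ.pi (fun _ : Fin n => Icc (-1 : ℝ) 1) ↔ cs r y ∈ Q n R := by simp [Q, hr.1, hr.2, Pi.le_def, forall_and]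
    by_cases hy : cs r y ∈ Q n R
    · rw [indicator_of_mem hy, indicator_of_mem (e.2 hy), ← ENNReal.ofReal_mul (exp_pos _).le, ← exp_sum, ← mul_assoc,
        ← exp_add, mul_assoc, ← exp_add, mul_comm]
      simp only [Ph, nsq, cs0, cs1, T0, T1, mul_pow, sq_sqrt (show 0 ≤ 1 - δ * ph R r by linarith), ← Finset.mul_sum]
      congr 3
      ring
    · rw [indicator_of_notMem hy, indicator_of_notMem (mt e.1 hy)]
  · intro u hu
    by_contra hc
    exact hu ((lintegral_congr fun y => indicator_of_notMem (fun h => hc h.1) _).trans lintegral_zero)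

lemma p_bd (P : Par n R δ) (hm : m ∈ Icc 0 (2 * R)) (hk : n * δ * kap (1 / 2 + 1 / (2 * R ^ 2)) = 2 * R ^ 3) {r : ℝ}
    (hr : r ∈ Icc R (2 * R)) : exp (-c - 3) * J (1 / 2 + 1 / (2 * R ^ 2)) ^ n ≤ p n R δ m c r ∧
      p n R δ m c r ≤ exp (-c + 2) * J (1 / 2 + 1 / (2 * R ^ 2)) ^ n := by
  have hR := P.hR
  have h1 := ph_mem hR hr
  have h2 := P.mem h1
  have R2 : 1 ≤ R ^ 2 := one_le_pow₀ hR
  have h3 : δ * ph R r / (2 * R ^ 2) ≤ δ * ph R r := div_le_self h2.1 (by linarith)
  have h4 : 0 ≤ δ * ph R r / (2 * R ^ 2) := div_nonneg h2.1 (by linarith)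
  have a := J_bd (1 / 2 + 1 / (2 * R ^ 2)) _ h4 (by linarith)
  have a1 := pow_le_pow_left₀ (mul_pos (J_pos _) (exp_pos _)).le a.1 n
  have a2 := pow_le_pow_left₀ (J_pos _).le a.2 n
  have e : n * (δ * ph R r / (2 * R ^ 2) * kap (1 / 2 + 1 / (2 * R ^ 2))) = r ^ 2 / 2 := by
    rw [show ∀ a b k : ℝ, n * (δ * a / b * k) = n * δ * k * a / b from fun _ _ _ => by ring, hk, ph]
    field_simp
  rw [mul_pow, ← exp_nat_mul] at a1 a2
  rw [e] at a1
  rw [mul_add, e] at a2
  have b1 : n * (δ * ph R r) ^ 2 ≤ 1 := by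
    have := mul_le_mul_of_nonneg_left (pow_le_pow_left₀ h2.1 (mul_le_mul_of_nonneg_left h1.2 P.hδ) 2) n.cast_nonneg
    nlinarith [P.h]
  have b2 := mul_le_mul_of_nonneg_left (pow_le_pow_left₀ h4 h3 2) n.cast_nonneg
  have b3 : (ph R r - m) ^ 2 / (2 * R ^ 2) ≤ 2 := by
    rw [div_le_iff₀ (by linarith)]
    nlinarith [h1.1, h1.2, hm.1, hm.2]
  have b4 : 0 ≤ (ph R r - m) ^ 2 / (2 * R ^ 2) := by positivity
  have b5 : 0 ≤ log (r / R) := log_nonneg ((one_le_div (by linarith)).2 hr.1)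
  have b6 : log (r / R) ≤ 1 := by
    have : r / R ≤ 2 := (div_le_iff₀ (by linarith)).2 hr.2
    linarith [log_le_sub_one_of_pos (div_pos (show 0 < r by linarith [hr.1]) (show 0 < R by linarith))]
  simp only [p, G]
  set x := δ * ph R r
  have b7 := log_le_sub_one_of_pos (show 0 < 1 - x by linarith)
  have b8 : -x - log (1 - x) ≤ 2 * x ^ 2 := by
    have := one_sub_inv_le_log_of_pos (show 0 < 1 - x by linarith)
    have : (1 - x)⁻¹ ≤ 1 + x + 2 * x ^ 2 := by
      rw [inv_le_iff_one_le_mul₀ (by linarith)]; nlinarith [mul_nonneg (sq_nonneg x) (show 0 ≤ 1 - 2 * x by linarith)]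
    linarith
  have b9 := mul_le_mul_of_nonneg_left b8 (by positivity : (0 : ℝ) ≤ n / 2)
  have b10 := mul_nonneg (by positivity : (0 : ℝ) ≤ n / 2) (show 0 ≤ -x - log (1 - x) by linarith)
  have j := pow_pos (J_pos (1 / 2 + 1 / (2 * R ^ 2))) n
  constructor
  · refine le_trans ?_ (mul_le_mul_of_nonneg_left a1 (exp_pos _).le)
    rw [mul_left_comm, ← exp_add, mul_comm]
    exact mul_le_mul_of_nonneg_left (exp_le_exp.2 (by linarith)) j.le
  · refine (mul_le_mul_of_nonneg_left a2 (exp_pos _).le).trans ?_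
    rw [mul_left_comm, ← exp_add, mul_comm]
    exact mul_le_mul_of_nonneg_right (exp_le_exp.2 (by linarith)) j.le

lemma gn {f : E n → ℝ} (x : E n) : ‖gradient f x‖ = ‖fderiv ℝ f x‖ := LinearIsometryEquiv.norm_map _ _

lemma upper (P : Par n R δ) [IsProbabilityMeasure (M (Q n R) (Ph R δ c))] :
    CLSI ((M (Q n R) (Ph R δ c)).map (T R δ m)) ≤ (256 : ℝ≥0) := by
  refine iInf₂_le 256 fun f hf => ?_
  have t := (T_cont (n := n) (R := R) (δ := δ) (m := m))
  have c1 := hf.continuous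
  have c2 := hf.continuous_fderiv (by simp)
  have a := lsi Q_cpt Q_cvx (Ph_meas (c := c)) (Ph_cvx P) (F := fun z => f (T R δ m z)) (by fun_prop) fun z hz =>
    (contDiff_infty.1 hf 2).contDiffAt.comp z (T_diff P hz).1
  simp only [gn, Ent] at a ⊢
  rw [integral_map t.aemeasurable (f := fun x => f x ^ 2 * log (f x ^ 2))
    (continuous_mul_log.comp (c1.pow 2)).aestronglyMeasurable,
    integral_map t.aemeasurable (f := fun x => f x ^ 2) (c1.pow 2).aestronglyMeasurable,
    integral_map t.aemeasurable (f := fun x => ‖fderiv ℝ f x‖ ^ 2) (c2.norm.pow 2).aestronglyMeasurable]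
  refine a.trans ?_
  rw [show ((256 : ℝ≥0) : ℝ) = 16 * 16 by norm_num, mul_assoc, ← integral_const_mul 16 fun z => ‖fderiv ℝ f (T R δ m z)‖ ^ 2]
  refine mul_le_mul_of_nonneg_left (integral_mono_of_nonneg (.of_forall fun _ => by positivity)
    (int_of Q_cpt (ae_M Q_cpt.measurableSet _) (by fun_prop)) ((ae_M Q_cpt.measurableSet _).mono fun z hz => ?_)) (by norm_num)
  have := pow_le_pow_left₀ (norm_nonneg _) ((ContinuousLinearMap.opNorm_comp_le (fderiv ℝ f (T R δ m z)) _).trans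
    (mul_le_mul_of_nonneg_left (T_diff (m := m) P hz).2 (norm_nonneg _))) 2
  simp only
  rw [fderiv_fun_comp z (hf.differentiable (by simp) _) ((T_diff P hz).1.differentiableAt (by simp))]
  linarith

lemma lower (P : Par n R δ) [IsProbabilityMeasure (M (Q n R) (Ph R δ c))] (hm : m ∈ Icc 0 (2 * R))
    (hk : n * δ * kap (1 / 2 + 1 / (2 * R ^ 2)) = 2 * R ^ 3) : .ofReal (R ^ 2 / (6 * exp 5)) ≤
    CLSI (((M (Q n R) (Ph R δ c)).map (T R δ m)).tilted fun x => -‖x‖ ^ 2 / (2 * R ^ 2)) := by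
  have hR := P.hR
  have t := (T_cont (n := n) (R := R) (δ := δ) (m := m))
  have ae := ae_M (Q_cpt (n := n) (R := R)).measurableSet (Ph R δ c)
  have hK := (Q_cpt (n := n) (R := R)).image t
  set μ := M (Q n R) (Ph R δ c) with hμ
  have : IsProbabilityMeasure (μ.map (T R δ m)) := Measure.isProbabilityMeasure_map t.aemeasurable
  have a1 : ∀ᵐ x ∂μ.map (T R δ m), x ∈ T R δ m '' Q n R :=
    (ae_map_iff t.aemeasurable hK.measurableSet).2 (ae.mono fun z hz => ⟨z, hz, rfl⟩)
  have i1 : Integrable (fun x : E n => exp (-‖x‖ ^ 2 / (2 * R ^ 2))) (μ.map (T R δ m)) := int_of hK a1 (by fun_prop)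
  have := isProbabilityMeasure_tilted i1
  have a2 := tilted_absolutelyContinuous _ (fun x : E n => -‖x‖ ^ 2 / (2 * R ^ 2)) a1
  refine le_iInf₂ fun C hC => ENNReal.ofReal_le_iff_le_toReal ENNReal.coe_ne_top |>.2 ?_
  replace hC := hC (fun x => x 0 + m) (by fun_prop)
  obtain ⟨b, hb⟩ := ent_ge (f := fun x : E n => x 0 + m) (Eventually.mono a2 (by
      rintro _ ⟨z, hz, rfl⟩
      linarith [(ph_mem hR hz.1).1, T0 (R := R) (δ := δ) (m := m) z])) (int_of hK a2 (by fun_prop))
    (int_of hK a2 (continuous_mul_log.comp (by fun_prop)).continuousOn)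
  have a3 := mul_le_of_le_one_right C.2 ((integral_mono_of_nonneg (μ := (μ.map (T R δ m)).tilted fun x => -‖x‖ ^ 2 / (2 * R ^ 2))
    (f := fun x => ‖gradient (fun x : E n => x 0 + m) x‖ ^ 2) (.of_forall fun _ => by positivity) (integrable_const 1)
    (.of_forall fun x => pow_le_one₀ (norm_nonneg _) ((gn x).trans_le (norm_fderiv_le_of_lip' ℝ zero_le_one
      (.of_forall fun y => by simpa using PiLp.norm_apply_le (y - x) 0))))).trans_eq (by simp))
  refine le_trans ?_ (hb.trans (hC.trans a3))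
  have k : ∀ q : ℝ → ℝ, Continuous q → (∀ u, 0 ≤ q u) → ENNReal.ofReal (∫ x : E n, exp (-‖x‖ ^ 2 / (2 * R ^ 2)) * q (x 0 + m)
      ∂μ.map (T R δ m)) = ∫⁻ r in Icc R (2 * R), .ofReal (q (ph R r) * p n R δ m c r) := fun q h1 h2 => by
    rw [ofReal_integral_eq_lintegral_ofReal (int_of hK a1 (by fun_prop)) (.of_forall fun x => mul_nonneg (exp_pos _).le (h2 _)),
      lintegral_map (by fun_prop) t.measurable, ← red P h1.measurable h2]
    simp only [T0, sub_add_cancel, hμ]
  have j := pow_pos (J_pos (1 / 2 + 1 / (2 * R ^ 2))) n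
  set A := J (1 / 2 + 1 / (2 * R ^ 2)) ^ n
  have b1 := (k (fun _ => 1) continuous_const fun _ => zero_le_one).trans_le (setLIntegral_mono' measurableSet_Icc
    (g := fun _ => .ofReal (exp (-c + 2) * A)) fun r hr => ENNReal.ofReal_le_ofReal ((one_mul _).trans_le (p_bd P hm hk hr).2))
  rw [setLIntegral_const, volume_Icc, ← ENNReal.ofReal_mul (by positivity),
    ENNReal.ofReal_le_ofReal_iff (mul_nonneg (by positivity) (by linarith))] at b1
  have b2 := (setLIntegral_mono' measurableSet_Icc (f := fun r => .ofReal ((ph R r - b) ^ 2 * (exp (-c - 3) * A)))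
    fun r hr => ENNReal.ofReal_le_ofReal (mul_le_mul_of_nonneg_left (p_bd P hm hk hr).1 (sq_nonneg _))).trans_eq
    (k (fun u => (u - b) ^ 2) (by fun_prop) fun _ => sq_nonneg _).symm
  rw [← ofReal_integral_eq_lintegral_ofReal (Continuous.integrableOn_Icc (by unfold ph; fun_prop))
    (.of_forall fun _ => by positivity), ENNReal.ofReal_le_ofReal_iff (integral_nonneg fun _ => by positivity),
    integral_mul_const, integral_Icc_eq_integral_Ioc, ← intervalIntegral.integral_of_le (by linarith),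
    intervalIntegral.integral_eq_sub_of_hasDerivAt (f := fun r => r ^ 5 / (20 * R ^ 2) - b * r ^ 3 / (3 * R) + b ^ 2 * r)
      (fun r _ => ?_) (Continuous.intervalIntegrable (by unfold ph; fun_prop) _ _)] at b2
  · simp only [mul_one] at b1
    have b3 := integral_exp_pos i1
    simp only [integral_tilted, smul_eq_mul, div_mul_eq_mul_div, integral_div]
    rw [le_div_iff₀ b3]
    refine le_trans ?_ b2
    have b4 : R ^ 3 / 6 ≤ (2 * R) ^ 5 / (20 * R ^ 2) - b * (2 * R) ^ 3 / (3 * R) + b ^ 2 * (2 * R) -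
        (R ^ 5 / (20 * R ^ 2) - b * R ^ 3 / (3 * R) + b ^ 2 * R) := by
      field_simp
      nlinarith [sq_nonneg (6 * b - 7 * R)]
    calc _ ≤ R ^ 2 / (6 * exp 5) * (exp (-c + 2) * A * (2 * R - R)) := by gcongr
      _ = R ^ 3 / 6 * (exp (-c - 3) * A) := by
        rw [show -c + 2 = -c - 3 + 5 by ring, exp_add]; field_simp; ring
      _ ≤ _ := by gcongr
  · have := ((((hasDerivAt_id r).pow 5).div_const (20 * R ^ 2)).sub
      ((((hasDerivAt_id r).pow 3).const_mul b).div_const (3 * R))).add ((hasDerivAt_id r).const_mul (b ^ 2))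
    refine this.congr_deriv ?_
    simp only [id, ph]; field_simp; norm_num; ring

theorem result (C : ℝ≥0) : ∃ n : ℕ, 1 ≤ n ∧ ∃ ρ : Measure (EuclideanSpace ℝ (Fin n)), IsProbabilityMeasure ρ ∧
    LogConcave ρ ∧ (∃ S, IsCompact S ∧ ρ Sᶜ = 0) ∧ (∀ i, ∫ x, x i ∂ρ = 0) ∧
    ∃ h : ℝ, 0 < h ∧ C * CLSI ρ < CLSI (ρ.tilted fun x => -‖x‖ ^ 2 / (2 * h)) := by
  obtain ⟨R, hR, h1⟩ : ∃ R : ℝ, 1 ≤ R ∧ C * 256 < R ^ 2 / (6 * exp 5) := by
    have : 0 ≤ C * 256 * (6 * exp 5) := by positivity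
    exact ⟨1 + C * 256 * (6 * exp 5), by linarith, by rw [lt_div_iff₀ (by positivity)]; nlinarith⟩
  have hk := kap_pos (1 / 2 + 1 / (2 * R ^ 2))
  set κ := kap (1 / 2 + 1 / (2 * R ^ 2)) with hκ
  obtain ⟨n, hn⟩ := exists_nat_gt (64 * R ^ 8 / κ ^ 2)
  have n0 : (0 : ℝ) < n := lt_of_le_of_lt (by positivity) hn
  have P : Par n R (2 * R ^ 3 / (n * κ)) := ⟨hR, by positivity, by
    rw [div_lt_iff₀ (by positivity)] at hn
    field_simp
    linarith, by exact_mod_cast n0⟩
  set δ := 2 * R ^ 3 / (n * κ) with hδ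
  obtain ⟨c, hc⟩ := normalise P
  have ae := ae_M (Q_cpt (n := n) (R := R)).measurableSet (Ph R δ c)
  have i1 : Integrable (fun z => ph R (z 0)) (M (Q n R) (Ph R δ c)) := int_of Q_cpt ae (by unfold ph; fun_prop)
  set m := ∫ z, ph R (z 0) ∂M (Q n R) (Ph R δ c) with hm
  have t := (T_cont (n := n) (R := R) (δ := δ) (m := m))
  refine ⟨n + 1, by simp, (M (Q n R) (Ph R δ c)).map (T R δ m), Measure.isProbabilityMeasure_map t.aemeasurable,
    fun A B hA hB a b ha hb h => ?_, ⟨_, Q_cpt.image t, (ae_map_iff t.aemeasurable (Q_cpt.image t).measurableSet).2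
      (ae.mono fun z hz => ⟨z, hz, rfl⟩)⟩, fun i => ?_, R ^ 2, by positivity, ?_⟩
  · have hC := ((hA.smul a).add (hB.smul b)).measurableSet
    rw [cov P, ← lintegral_indicator_one hA.measurableSet, ← lintegral_indicator_one hB.measurableSet,
      ← lintegral_indicator_one hC]
    refine pl K_meas K_cvx W_meas ha hb h (fun _ _ => 0) (W_cvx P ha hb h) (measurable_one.indicator hA.measurableSet)
      (measurable_one.indicator hB.measurableSet) (measurable_one.indicator hC) fun x _ y _ => ?_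
    by_cases hx : x ∈ A
    · by_cases hy : y ∈ B
      · simp [hx, hy, Set.add_mem_add (smul_mem_smul_set hx) (smul_mem_smul_set hy)]
      · simp [hy, hb]
    · simp [hx, ha]
  · rw [integral_map t.aemeasurable (Continuous.aestronglyMeasurable (by fun_prop))]
    refine Fin.cases ?_ sym i
    simp only [T0]
    rw [integral_sub i1 (integrable_const _)]
    simp [hm]
  · refine lt_of_lt_of_le (lt_of_le_of_lt (mul_le_mul_right (upper P) _) ?_) (lower P ⟨?_, ?_⟩ (by rw [← hκ, hδ]; field_simp))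
    · rw [← ENNReal.coe_mul, ENNReal.coe_lt_ofReal]
      exact_mod_cast h1
    · exact integral_nonneg fun z => by unfold ph; positivity
    · exact (integral_mono_ae i1 (integrable_const (2 * R)) (ae.mono fun z hz => (ph_mem hR hz.1).2)).trans_eq (by simp)

end

end Pool.Agent.Results.MP_13a01f_pr.TiltFails
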